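import Pool.Agent.W223.AC.Stms

/-! # AC-LOC: integral elements have integral values -/

set_option autoImplicit false

namespace Pool.Agent.W597.AC

open Polynomial IsDedekindDomain NumberField Pool.Agent.W223.AC

theorem psi_X (A : Type) [CommRing A] [Algebra ℚ[X] A] : psi A X = tt A := by
  unfold psi tt
  simp

theorem psi_mem {A : Type} [CommRing A] [Algebra ℚ[X] A] {L : Type} [Field L] (φ : A →+* L)
    (O : Subring L) (h : φ (tt A) ∈ O) (q : ℤ[X]) : φ (psi A q) ∈ O := by
  induction q using Polynomial.induction_on' with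
  | add p q hp hq =>
    rw [map_add, map_add]
    exact add_mem hp hq
  | monomial n a =>
    rw [← C_mul_X_pow_eq_monomial, map_mul, map_pow, map_mul, map_pow, psi_X,
      eq_intCast (C : ℤ →+* ℤ[X]) a, map_intCast, map_intCast]
    exact mul_mem (intCast_mem O a) (pow_mem h n)

theorem t : StmtLOC := by
  intro A _ _ y hy L _ _ φ v ht
  set w := v.valuation L with hw
  obtain ⟨p, hp, hpy⟩ := hy
  have hmem : ∀ q : ℤ[X], φ (psi A q) ∈ w.integer := psi_mem φ w.integer ht
  let θ : ℤ[X] →+* w.integer := (φ.comp (psi A)).codRestrict w.integer hmem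
  have hint : IsIntegral w.integer (φ y) := by
    refine ⟨p.map θ, hp.map θ, ?_⟩
    rw [eval₂_map]
    have h1 : (algebraMap w.integer L).comp θ = φ.comp (psi A) := by
      refine RingHom.ext fun q => ?_
      rfl
    rw [h1, ← Polynomial.hom_eval₂, hpy, map_zero]
  exact (Valuation.integer.integers w).mem_of_integral hint

end Pool.Agent.W597.AC
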